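import Pool.Agent.Lib.MP_af3a4a_an.P1.H80.N3
import Pool.Agent.Lib.MP_af3a4a_an.P1.H80.Cont3
import Pool.Agent.Lib.MP_af3a4a_an.P1.CHK.BOX.Chunk

/-!
# Assembly of the proof for `p = 1` (council 2, helper11)

`final2_of`: the parts which together exclude every configuration in normal form.
-/

set_option autoImplicit false

namespace Pool.Agent.Lib.MP_af3a4a_an.P1.Final

open Pool.Agent.Lib.MP_af3a4a_an.P1.H80
open Pool.Agent.Lib.MP_af3a4a_an.P1.CHK.BOX

/-- `N = 3`, middle range of `R` (boxes): `1126/1024 < 11/10`, `57/40 < 1460/1024` -/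
def Box3 : Prop := ChunkP 3 3 0 4096 0 101 1126 1460

/-- no configuration with `R ≤ 29/12` for this `N` -/
def Low (N : ℕ) : Prop :=
  ∀ (z w : Fin N → ℂ) (R : ℝ) (σ : Fin N → ℂ), Cfg2 N z w R σ → 29 / 12 < R

/-- no configuration with `R ≥ 29/12` for this `N` -/
def High (N : ℕ) : Prop :=
  ∀ (z w : Fin N → ℂ) (R : ℝ) (σ : Fin N → ℂ), Cfg2 N z w R σ → R ≤ 29 / 12

/-- from a full chunk with `R1 ≥ 2475` -/
theorem low_of {Na Nb R1 : ℕ} (h : ChunkP Na Nb 0 4096 0 101 0 R1) (hR : 2475 ≤ R1) {N : ℕ}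
    (hNa : Na ≤ N) (hNb : N ≤ Nb) : Low N := by
  intro z w R σ hC
  have h1 := h.full hNa hNb hC
  have h2 : (2475 : ℝ) ≤ R1 := by exact_mod_cast hR
  linarith

/-- a chunk with all `m` excludes the whole interval of `R` -/
theorem strip {Na Nb R0 R1 : ℕ} (h : ChunkP Na Nb 0 4096 0 101 R0 R1) {N : ℕ} (hNa : Na ≤ N)
    (hNb : N ≤ Nb) {z w : Fin N → ℂ} {R : ℝ} {σ : Fin N → ℂ} (hC : Cfg2 N z w R σ)
    (h0 : (R0 : ℝ) / 1024 ≤ R) (h1 : R ≤ (R1 : ℝ) / 1024) : False := by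
  obtain ⟨r, γ, hr, hr1, hγ, hγ2, hRr, hm⟩ := CHK.H80.polar_exists hC
  refine h N hNa hNb z w R σ hC r γ ⟨hm, hr, hγ, hγ2, hRr, ?_, ?_, ?_, ?_, h0, h1⟩
  · rw [Nat.cast_zero, zero_div]; exact hr.le
  · push_cast; linarith
  · rw [Nat.cast_zero, zero_div]; exact hγ
  · have := Real.pi_lt_d6
    push_cast
    norm_num at this ⊢
    linarith

/-- a low chunk and an extra exclusion of `[R2, 29/12]` -/
theorem low_of' {Na Nb R1 : ℕ} {R2 : ℝ} (h : ChunkP Na Nb 0 4096 0 101 0 R1)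
    (hR : R2 ≤ (R1 : ℝ) / 1024) {N : ℕ} (hNa : Na ≤ N) (hNb : N ≤ Nb)
    (hx : ∀ (z w : Fin N → ℂ) (R : ℝ) (σ : Fin N → ℂ), Cfg2 N z w R σ → R2 ≤ R → R ≤ 29 / 12 →
      False) : Low N := by
  intro z w R σ hC
  have h1 := h.full hNa hNb hC
  by_contra hcon
  push Not at hcon
  exact hx z w R σ hC (by linarith) hcon

/-- **assembly** -/
theorem final2_of (h3 : Box3) (hLow : ∀ N, 4 ≤ N → Low N) (hHigh : ∀ N, 4 ≤ N → High N) :
    FINAL2_S := by
  intro N z w R σ hC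
  have hN := hC.hN
  rcases Nat.lt_or_ge N 4 with h4 | h4
  · have e : N = 3 := by omega
    subst e
    have h1 := n3_contour hC
    rcases le_or_gt R (11 / 10) with h5 | h5
    · exact n3_small h5 hC
    · exact strip h3 le_rfl le_rfl hC (by norm_num; linarith) (by norm_num; linarith)
  · have h1 := hLow N h4 z w R σ hC
    have h2 := hHigh N h4 z w R σ hC
    linarith

end Pool.Agent.Lib.MP_af3a4a_an.P1.Final
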